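import Pool.Agent.Q171.RC.GenHyp
import Pool.Agent.Q171.RC.Seq

/-!
# Kobayashi's conjecture on general hypersurfaces, for curves given by functional equations

We consider entire curves, holomorphic maps `f : ℂ → X`, in hypersurfaces `X = {F = 0}` of degree `d`
in the complex projective space of dimension `n + 1`, with meromorphic homogeneous coordinates `h_j`
each of which satisfies a nontrivial linear functional equation `∑ P_k (t z) h_j (σ^k z) = 0`,
`k ≤ r`, with polynomials `P_k` of degree at most `e` (`LinCurve r e σ t f`). Here `σ` is a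
nonconstant entire function and `t` is an entire function with `t (σ z) = α t z + β`; for instance
`σ z = q z`, `t z = z` (`q`-difference equations) or `σ z = z + b`, `t z = z` (difference equations).

For all `n`, `d`, `r`, `e` there are a number `B` and a Zariski-OPEN set `U` of forms `F` of degree
`d`, given by polynomials in the coefficients of `F` with RATIONAL coefficients, such that

(1) if `d ≥ 2 n + 2` then `U` is not empty (so it contains the general form);

(2) `U` contains all forms `F` for which `{F = 0}` contains no rational curve (for instance all `F`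
for which `{F = 0}` is hyperbolic), for all degrees `d`;

(3) if `F` is in `U`, then for all `q` which are not zero and not roots of unity, all entire curves
in `{F = 0}` given by `q`-difference equations of order at most `r` with polynomial coefficients of
degree at most `e` are constant;

(4) if `F` is in `U`, then for all `σ`, `t` as above such that `t ∘ σ^k ≠ t` for `0 < k ≤ B`, all
entire curves `f` in `{F = 0}` with `LinCurve r e σ t f` satisfy `f ∘ σ^k = f` for some `0 < k ≤ B`.
-/

set_option autoImplicit false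

namespace Pool.Agent.Results.MP_b509a1_ag.GeneralFunctionalCurves

open MvPolynomial Pool.Agent.Q309.DU Pool.Agent.Q171.RC
open Pool.Agent.TH143.EL (HolMap)
open scoped LinearAlgebra.Projectivization

theorem result (n d r e : ℕ) : ∃ (B : ℕ) (Ps : Set (MvPolynomial ((Fin (n + 2)) →₀ ℕ) ℚ)),
    (2 * n + 2 ≤ d → ∃ P ∈ Ps, ∃ F₀ : MvPolynomial (Fin (n + 2)) ℂ, F₀.IsHomogeneous d ∧
      aeval (fun m => F₀.coeff m) P ≠ 0) ∧
    (∀ F : MvPolynomial (Fin (n + 2)) ℂ, F.IsHomogeneous d → NoRationalCurve F →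
      ∃ P ∈ Ps, aeval (fun m => F.coeff m) P ≠ 0) ∧
    ∀ F : MvPolynomial (Fin (n + 2)) ℂ, F.IsHomogeneous d →
      (∃ P ∈ Ps, aeval (fun m => F.coeff m) P ≠ 0) →
      (∀ q : ℂ, q ≠ 0 → (∀ m : ℕ, 0 < m → q ^ m ≠ 1) →
        ∀ f : ℂ → ℙ ℂ (Fin (n + 2) → ℂ), HolMap f → (∀ z, eval (f z).rep F = 0) →
          LinCurve r e (fun z => q * z) (fun z => z) f → ∀ z w, f z = f w) ∧
      ∀ (σ t : ℂ → ℂ) (α β : ℂ), Differentiable ℂ σ → (∃ z w, σ z ≠ σ w) → Differentiable ℂ t →
        (∀ z, t (σ z) = α * t z + β) → (∀ k, 0 < k → k ≤ B → ∃ z, t (σ^[k] z) ≠ t z) →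
        ∀ f : ℂ → ℙ ℂ (Fin (n + 2) → ℂ), HolMap f → (∀ z, eval (f z).rep F = 0) →
          LinCurve r e σ t f → ∃ k, 0 < k ∧ k ≤ B ∧ ∀ z, f (σ^[k] z) = f z := by
  obtain ⟨δ, hδ⟩ := fun_locus (n + 1) d r e
  obtain ⟨Ps, h1, h2⟩ := general_open n d δ
  refine ⟨δ, Ps, h1, fun F hF hno => (h2 F hF).2 (noRatLe_of hno δ), fun F hF hU => ?_⟩
  have hno := (h2 F hF).1 hU
  have key : ∀ (σ t : ℂ → ℂ) (α β : ℂ), Differentiable ℂ σ → (∃ z w, σ z ≠ σ w) →
      Differentiable ℂ t → (∀ z, t (σ z) = α * t z + β) →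
      (∀ k, 0 < k → k ≤ δ → ∃ z, t (σ^[k] z) ≠ t z) →
      ∀ f : ℂ → ℙ ℂ (Fin (n + 2) → ℂ), HolMap f → (∀ z, eval (f z).rep F = 0) →
        LinCurve r e σ t f → ∃ k, 0 < k ∧ k ≤ δ ∧ ∀ z, f (σ^[k] z) = f z := by
    intro σ t α β hσ hσn ht hαβ hord f hf hfX hl
    rcases hδ {F} (fun F' hF' => by
      rw [Set.mem_singleton_iff] at hF'
      rw [hF']
      exact ⟨d, le_rfl, hF⟩) σ t α β hσ hσn ht hαβ hord f hf (fun z F' hF' => by
      rw [Set.mem_singleton_iff] at hF'
      rw [hF']
      exact hfX z) hl with h3 | h3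
    · exact absurd (h3 0) (noRatLe_off hF hno (f 0).rep_nonzero)
    · exact h3
  refine ⟨fun q hq0 hqr f hf hX hl z w => ?_, key⟩
  obtain ⟨k, hk, -, hinv⟩ := key (fun z => q * z) (fun z => z) q 0
    (differentiable_id.const_mul q) ⟨0, 1, by simpa using hq0.symm⟩ differentiable_id
    (fun z => by simp) (fun k hk _ => ⟨1, by
      simp only [mul_iter, mul_one]
      exact hqr k hk⟩) f hf hX hl
  exact const_of_dil hqr hf hl hk hinv z w

end Pool.Agent.Results.MP_b509a1_ag.GeneralFunctionalCurves
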