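import Pool.Agent.Q171.RC.GenHyp
import Pool.Agent.Q171.RC.Base
import Pool.Agent.Q171.RC.Seq
import Pool.Agent.Q139.EB.AffUni

/-!
# Kobayashi's conjecture on general hypersurfaces, for curves over nonlinear differential equations

For all `n`, `d`, `q`, `e0`, `s`, `r`, `e` there are a number `M` and a Zariski-OPEN set `U` of forms
`F` of degree `d` in `n + 2` variables, given by polynomials in the coefficients of `F` with RATIONAL
coefficients, such that

(1) if `d ≥ 2 n + 2` then `U` is not empty (so it contains the general form);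

(2) `U` contains all forms `F` for which `{F = 0}` contains no rational curve (for instance all `F`
for which `{F = 0}` is hyperbolic), for all degrees `d`;

(3) let `F` be in `U` and let `b = (b_1, ..., b_q)` be any solution, on any domain `Ω` of the plane, of
any autonomous system `b_j' = P_j(b)` with polynomials `P_j` of degree at most `e0` in each variable.
Every curve `f : Ω → {F = 0}`, the homogeneous coordinates of which are given by `s` iterated linear
differential equations with matrices of size `r` and polynomials of degree at most `e` over the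
functions `b_j` (`BVec Ω s r e b f`), is algebraic of degree at most `M` over `b_1, ..., b_q`;

(4) let `F` be in `U` and let `L` be any lattice in the plane. Every entire curve
`f : ℂ → {F = 0}` which is given, on some domain, in this way over elliptic functions for `L`
(`EllCurve L q e0 s r e f`) factors through the complex torus `ℂ / Λ` for a subgroup `Λ` of index at
most `M` of `L`.
-/

set_option autoImplicit false

namespace Pool.Agent.Results.MP_b509a1_ag.GeneralNonlinearBases

open MvPolynomial Pool.Agent.Q139.EB Pool.Agent.Q171.RC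
open Pool.Agent.TH143.EL (HolMap)
open scoped LinearAlgebra.Projectivization

theorem result (n d q e0 s r e : ℕ) :
    ∃ (M : ℕ) (Ps : Set (MvPolynomial ((Fin (n + 2)) →₀ ℕ) ℚ)),
    (2 * n + 2 ≤ d → ∃ P ∈ Ps, ∃ F₀ : MvPolynomial (Fin (n + 2)) ℂ, F₀.IsHomogeneous d ∧
      aeval (fun m => F₀.coeff m) P ≠ 0) ∧
    (∀ F : MvPolynomial (Fin (n + 2)) ℂ, F.IsHomogeneous d → NoRationalCurve F →
      ∃ P ∈ Ps, aeval (fun m => F.coeff m) P ≠ 0) ∧
    ∀ F : MvPolynomial (Fin (n + 2)) ℂ, F.IsHomogeneous d →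
      (∃ P ∈ Ps, aeval (fun m => F.coeff m) P ≠ 0) →
      (∀ Ω : Set ℂ, IsOpen Ω → IsPreconnected Ω → ∀ b : ℂ → Fin q → ℂ, Auto Ω e0 b →
        ∀ f : ℂ → Fin (n + 2) → ℂ, BVec Ω s r e b f → (∃ z ∈ Ω, f z ≠ 0) →
          (∀ z ∈ Ω, eval (f z) F = 0) → ∀ u v, AlgOn Ω M b (fun z => f z u) fun z => f z v) ∧
      ∀ (L : PeriodPair) (f : ℂ → ℙ ℂ (Fin (n + 2) → ℂ)), HolMap f →
        (∀ z, eval (f z).rep F = 0) → EllCurve L q e0 s r e f →
          ∃ Λ : AddSubgroup L.lattice, Λ.index ≠ 0 ∧ Λ.index ≤ M ∧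
            ∀ l ∈ Λ, ∀ z, f (z + (l : ℂ)) = f z := by
  obtain ⟨δ1, hδ1⟩ := base_locus (n + 1) d q e0 s r e
  obtain ⟨δ2, -, hδ2⟩ := ell_locus (n + 1) d q e0 s r e
  obtain ⟨Ps, h1, h2⟩ := general_open n d (max δ1 δ2)
  refine ⟨max δ1 δ2, Ps, h1, fun F hF hno => (h2 F hF).2 (noRatLe_of hno _), fun F hF hU => ?_⟩
  have hno := (h2 F hF).1 hU
  have hS : ∀ F' ∈ ({F} : Set (MvPolynomial (Fin (n + 2)) ℂ)), ∃ e, e ≤ d ∧
      F'.IsHomogeneous e := fun F' hF' => by
    rw [Set.mem_singleton_iff] at hF'
    rw [hF']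
    exact ⟨d, le_rfl, hF⟩
  refine ⟨fun Ω hΩ hΩc b hb f hf hne hfX => ?_, fun L f hf hfX hE => ?_⟩
  · rcases hδ1 {F} hS Ω hΩ hΩc b hb f hf (fun z hz F' hF' => by
      rw [Set.mem_singleton_iff] at hF'
      rw [hF']
      exact hfX z hz) with h3 | h3
    · obtain ⟨z, hz, hz0⟩ := hne
      exact absurd ((h3 z hz hz0).mono' (le_max_left _ _)) (noRatLe_off hF hno hz0)
    · intro u v
      exact (h3 u v).mono (le_max_left _ _)
  · rcases hδ2 L {F} hS f hf (fun z F' hF' => by
      rw [Set.mem_singleton_iff] at hF'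
      rw [hF']
      exact hfX z) hE with h3 | ⟨h3, h4⟩
    · exact absurd ((h3 0).mono' (le_max_right _ _)) (noRatLe_off hF hno (f 0).rep_nonzero)
    · exact ⟨perGp L f, h3, h4.trans (le_max_right _ _), fun l hl z => hl z⟩

end Pool.Agent.Results.MP_b509a1_ag.GeneralNonlinearBases
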