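import Pool.Agent.Q309.PO.Fld
import Pool.Agent.Q309.PO.Mahler
import Pool.Agent.Q309.PO.Inv
import Pool.Agent.Q171.RC.GenHyp

set_option autoImplicit false

/-!
# General hypersurfaces: nonlinear functional equations, Mahler equations and recurrences

We consider hypersurfaces `X = {F = 0}` of degree `d` in the complex projective space of dimension
`n + 1`. For all `n`, `d`, `r`, `e`, `q` there are a number `B` and a Zariski-OPEN set `U` of forms `F`
of degree `d`, given by polynomials in the coefficients of `F` with RATIONAL coefficients, such that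

(1) if `d ≥ 2 n + 2` then `U` is not empty (so it contains the general form);

(2) `U` contains all forms `F` for which `{F = 0}` contains no rational curve (for instance all `F`
for which `{F = 0}` is hyperbolic), for all degrees `d`;

(3) (Mahler equations) if `F` is in `U` and `2 ≤ p ≤ q`, then all holomorphic maps from the unit disc
to `{F = 0}` with homogeneous coordinates which satisfy equations
`∑ P_k(z) h_j(z^(p^k)) = 0`, `k ≤ r`, `deg P_k ≤ e`, are constant;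

(4) (functional equations over Poincare functions) if `F` is in `U`, `λ ≠ 0` is not a root of unity,
`t` is a nonconstant entire function with `t(λ z) = ρ(t(z))`, `ρ` a polynomial of degree at most `q`,
then all entire curves in `{F = 0}` with equations `∑ P_k(t(z)) h_j(λ^k z) = 0`, `k ≤ r`,
`deg P_k ≤ e`, are constant;

(5) if `F` is in `U`, `σ`, `t` are entire, `σ` is not constant, `t(σ(z)) = ρ(t(z))`, `deg ρ ≤ q`, and
`t ∘ σ^k ≠ t` for `0 < k ≤ B`, then all entire curves `f` in `{F = 0}` with equations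
`∑ P_k(t(z)) h_j(σ^k(z)) = 0` satisfy `f ∘ σ^k = f` for some `0 < k ≤ B`;

(6) (sequences) if `F` is in `U`, then each sequence of points of `{F = 0}` with homogeneous
coordinates which satisfy recurrences `∑ P_k(t_m) x_j(m + k) = 0`, `k ≤ r`, `deg P_k ≤ e`, where
`t_0, t_1, ...` are different numbers with `t_(m+1) = ρ(t_m)`, `deg ρ ≤ q`, consists of at most `B`
different points;

(7) (difference fields) if `F` is in `U`, `σ` is an endomorphism of an extension `L` of `ℂ`,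
`σ(t) = ρ(t)`, where the coefficients of `ρ`, `deg ρ ≤ q`, are fixed by `σ`, and `σ^k(t) ≠ t` for
`0 < k ≤ B`, then all points of `{F = 0}` over `L` given by equations `∑ P_k(t) σ^k(x_j) = 0`
(coefficients of `P_k` fixed by `σ`) are fixed by `σ^k` for some `0 < k ≤ B`.
-/

namespace Pool.Agent.Results.MP_b509a1_ag.NonlinearFunctionalCurves

open MvPolynomial Set Metric Pool.Agent.Q309.DU Pool.Agent.Q309.PO
open Pool.Agent.Q171.RC (NoRationalCurve general_open noRatLe_of NoRatLe)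
open Pool.Agent.Q1.SL
open Pool.Agent.TH143.EL (HolMap)
open scoped LinearAlgebra.Projectivization

/-- The homogeneous coordinates of the point `f z` satisfy linear functional equations. -/
theorem result (n d r e q : ℕ) : ∃ (B : ℕ) (Ps : Set (MvPolynomial ((Fin (n + 2)) →₀ ℕ) ℚ)),
    (2 * n + 2 ≤ d → ∃ P ∈ Ps, ∃ F₀ : MvPolynomial (Fin (n + 2)) ℂ, F₀.IsHomogeneous d ∧
      aeval (fun m => F₀.coeff m) P ≠ 0) ∧
    (∀ F : MvPolynomial (Fin (n + 2)) ℂ, F.IsHomogeneous d → NoRationalCurve F →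
      ∃ P ∈ Ps, aeval (fun m => F.coeff m) P ≠ 0) ∧
    ∀ F : MvPolynomial (Fin (n + 2)) ℂ, F.IsHomogeneous d →
      (∃ P ∈ Ps, aeval (fun m => F.coeff m) P ≠ 0) →
      (∀ p, 2 ≤ p → p ≤ q → ∀ h : ℂ → Fin (n + 2) → ℂ, ¬ MahlerDisc r e p {F} h) ∧
      (∀ lam : ℂ, lam ≠ 0 → (∀ m : ℕ, 0 < m → lam ^ m ≠ 1) → ∀ (t : ℂ → ℂ) (ρ : Polynomial ℂ),
        Differentiable ℂ t → (∃ z w, t z ≠ t w) → ρ.natDegree ≤ q →
        (∀ z, t (lam * z) = ρ.eval (t z)) → ∀ f : ℂ → ℙ ℂ (Fin (n + 2) → ℂ), HolMap f →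
          (∀ z, eval (f z).rep F = 0) → LinCurve r e (fun z => lam * z) t f →
            ∀ z w, f z = f w) ∧
      (∀ (σ t : ℂ → ℂ) (ρ : Polynomial ℂ), Differentiable ℂ σ → (∃ z w, σ z ≠ σ w) →
        Differentiable ℂ t → ρ.natDegree ≤ q → (∀ z, t (σ z) = ρ.eval (t z)) →
        (∀ k, 0 < k → k ≤ B → ∃ z, t (σ^[k] z) ≠ t z) →
        ∀ f : ℂ → ℙ ℂ (Fin (n + 2) → ℂ), HolMap f → (∀ z, eval (f z).rep F = 0) →
          LinCurve r e σ t f → ∃ k, 0 < k ∧ k ≤ B ∧ ∀ z, f (σ^[k] z) = f z) ∧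
      (∀ x : ℕ → Fin (n + 2) → ℂ, ORec r e q x → ∀ hx : ∀ m, x m ≠ 0,
        (∀ m, eval (x m) F = 0) →
          (Set.range fun m => Projectivization.mk ℂ (x m) (hx m)).encard ≤ B) ∧
      ∀ (L : Type) [Field L] [Algebra ℂ L] (σ : L →ₐ[ℂ] L) (t : L) (x : Fin (n + 2) → L),
        OPt r e q σ t x → (∀ k, 0 < k → k ≤ B → (σ ^ k) t ≠ t) → aeval x F = 0 →
          ∃ k, 0 < k ∧ k ≤ B ∧ ∀ u v, (σ ^ k) (x u) * x v = (σ ^ k) (x v) * x u := by
  obtain ⟨δ1, hδ1⟩ := pla_uniform (n + 1) d r e q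
  obtain ⟨δ2, hδ2⟩ := mahler_uniform (n + 1) d r e q
  obtain ⟨δ3, hδ3⟩ := pts_uniform (n + 1) d r e q
  obtain ⟨δ4, hδ4⟩ := opt_uniform (n + 1) d r e q
  obtain ⟨Ps, h1, h2⟩ := general_open n d (δ1 + δ2 + δ3 + δ4)
  refine ⟨δ1 + δ2 + δ3 + δ4, Ps, h1, fun F hF hno => (h2 F hF).2 (noRatLe_of hno _),
    fun F hF hU => ?_⟩
  have hno : NoRatLe {F} (δ1 + δ2 + δ3 + δ4) := (h2 F hF).1 hU
  have hS : ∀ F' ∈ ({F} : Set (MvPolynomial (Fin (n + 2)) ℂ)), ∃ e, e ≤ d ∧
      F'.IsHomogeneous e := fun F' hF' => by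
    rw [Set.mem_singleton_iff] at hF'
    rw [hF']
    exact ⟨d, le_rfl, hF⟩
  have hG : ∃ e, e ≤ d ∧ (1 : MvPolynomial (Fin (n + 2)) ℂ).IsHomogeneous e :=
    ⟨0, Nat.zero_le _, isHomogeneous_one _ _⟩
  have hrat : ∀ δ, δ ≤ δ1 + δ2 + δ3 + δ4 → RatIn ({F} : Set (MvPolynomial (Fin (n + 2)) ℂ)) 1 δ := by
    intro δ hδ p hp1 hp2 hp3
    exfalso
    obtain ⟨F', hF', h3⟩ := hno p hp3 fun j => (hp1 j).trans hδ
    exact h3 (hp2 F' hF')
  have hone : ∀ x : Fin (n + 2) → ℂ, eval x (1 : MvPolynomial (Fin (n + 2)) ℂ) ≠ 0 := fun x => by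
    rw [map_one]
    exact one_ne_zero
  have hsing : ∀ {p : MvPolynomial (Fin (n + 2)) ℂ → Prop}, p F →
      ∀ F' ∈ ({F} : Set (MvPolynomial (Fin (n + 2)) ℂ)), p F' := fun h F' hF' => by
    rw [Set.mem_singleton_iff] at hF'
    rw [hF']
    exact h
  have key : ∀ (σ t : ℂ → ℂ) (ρ : Polynomial ℂ), Differentiable ℂ σ → (∃ z w, σ z ≠ σ w) →
        Differentiable ℂ t → ρ.natDegree ≤ q → (∀ z, t (σ z) = ρ.eval (t z)) →
        (∀ k, 0 < k → k ≤ δ1 + δ2 + δ3 + δ4 → ∃ z, t (σ^[k] z) ≠ t z) →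
        ∀ f : ℂ → ℙ ℂ (Fin (n + 2) → ℂ), HolMap f → (∀ z, eval (f z).rep F = 0) →
          LinCurve r e σ t f → ∃ k, 0 < k ∧ k ≤ δ1 + δ2 + δ3 + δ4 ∧
            ∀ z, f (σ^[k] z) = f z := by
    intro σ t ρ hσ hσn ht hρ hρt hord f hf hX hl
    rcases hδ1 {F} hS σ t ρ hσ hσn ht hρ hρt (fun k hk hk' => hord k hk (by omega)) f hf
      (fun z => hsing (hX z)) hl with h3 | ⟨k, hk, hk', h3⟩
    · exact absurd (h3 1 hG (hrat _ (by omega)) 0) (hone _)
    · exact ⟨k, hk, by omega, h3⟩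
  refine ⟨fun p hp hpq h H => ?_, fun lam hl0 hlr t ρ ht htn hρ hρt f hf hX hl z w => ?_, key,
    fun x hx hx0 hX => ?_, fun L _ _ σ t x hx ht hX => ?_⟩
  · exact hone (h 0) (hδ2 {F} hS p hp hpq h H 1 hG (hrat _ (by omega)) 0
      (mem_ball_self one_pos))
  · obtain ⟨k, hk, -, hinv⟩ := key (fun z => lam * z) t ρ (differentiable_id.const_mul lam)
      ⟨0, 1, by simpa using hl0.symm⟩ ht hρ hρt (fun k hk _ => dil_ord hlr ht htn k hk) f hf hX hl
    exact const_of_dil hlr hf hl hk hinv z w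
  · have h3 : (Set.range fun m => Projectivization.mk ℂ (x m) (hx0 m)).encard ≤ (δ3 : ℕ) := by
      refine Pool.Agent.Q309.TP.encard_le hx0 fun M => ?_
      obtain ⟨t, ht⟩ := wseq_of (hx.oseq hx0 M) (RingHom.id ℂ) (S := {F})
        (fun m _ => hsing (hX m))
      exact hδ3 {F} hS 1 hG (hrat _ (by omega)) M t x ht fun m _ => hone _
    refine h3.trans ?_
    exact_mod_cast (by omega : δ3 ≤ δ1 + δ2 + δ3 + δ4)
  · rcases hδ4 {F} hS L σ t x hx (fun k hk hk' => ht k hk (by omega)) (hsing hX) with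
      ⟨k, hk, hk', h3⟩ | h3
    · exact ⟨k, hk, by omega, h3⟩
    · have h4 := h3 1 hG (hrat _ (by omega))
      rw [map_one] at h4
      exact absurd h4 one_ne_zero

end Pool.Agent.Results.MP_b509a1_ag.NonlinearFunctionalCurves
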