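import Pool.Agent.Q171.RC.Hyp

/-!
# Kobayashi's conjecture on general hypersurfaces, for curves of bounded complexity

We consider curves `f : Ω → X` on arbitrary domains `Ω` of the plane (for instance entire curves,
`Ω = ℂ`) in hypersurfaces `X = {F = 0}` of degree `d` in the complex projective space of dimension
`n + 1`, with homogeneous coordinates given by `s` iterated linear differential equations with
matrices of size `r` and polynomials of degree at most `e` (`DVec Ω s r e f`): there are invertible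
matrices `X_1(z), ..., X_s(z)` of size `r` of analytic functions on `Ω` such that the entries of
`X_l'(z) X_l(z)⁻¹` are values of polynomials with constant coefficients, of degree at most `e` in
each variable, at the entries of `X_i(z)`, `X_i(z)⁻¹`, `i < l`, and the coordinates of `f(z)` are
values of such polynomials at the entries of all these matrices. (Polynomials, exponential
polynomials, `exp (exp z)`, Airy functions, and so on, are of this kind.)

For all `n`, `d`, `s`, `r`, `e` there is a Zariski-OPEN set `U` of forms `F` of degree `d`, given by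
polynomials in the coefficients of `F` with RATIONAL coefficients, such that

(1) if `d ≥ 2 n + 2` then `U` is not empty (so it contains the general form);

(2) `U` contains all forms `F` for which `{F = 0}` contains no rational curve, in particular, by (3),
all `F` for which `{F = 0}` is hyperbolic, for all degrees `d`: each hyperbolic hypersurface has a
Zariski-open neighbourhood in which all hypersurfaces are hyperbolic with respect to the curves of
the given complexity;

(4) if `F` is in `U`, all curves `f : Ω → {F = 0}` of complexity `(s, r, e)`, for all domains `Ω`,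
are constant.
-/

set_option autoImplicit false

namespace Pool.Agent.Results.MP_b509a1_ag.ZariskiOpenBounded

open MvPolynomial Pool.Agent.Q1.SL Pool.Agent.Q171.RC

/-- `{F = 0}` is (Brody, hence Kobayashi) hyperbolic. -/
def Hyperbolic {N : ℕ} (F : MvPolynomial (Fin N) ℂ) : Prop :=
  ∀ g : ℂ → (Fin N → ℂ), Differentiable ℂ g → (∀ z, g z ≠ 0) → (∀ z, eval (g z) F = 0) →
    ∀ z, ∃ c : ℂ, g z = c • g 0

/-- `{F = 0}` contains no rational curve: there is no vector of polynomials `p` with `F (p) = 0` the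
points of which (in projective space) are not all the same. -/
def NoRationalCurve {N : ℕ} (F : MvPolynomial (Fin N) ℂ) : Prop :=
  ∀ p : Fin N → Polynomial ℂ, aeval p F = 0 →
    ∀ s t i j, (p i).eval s * (p j).eval t = (p j).eval s * (p i).eval t

/-- All curves in `{F = 0}`, on all domains `Ω` of the plane, given by `s` iterated linear
differential equations with matrices of size `r` and polynomials of degree at most `e`, are
constant. -/
def BoundedHyperbolic {N : ℕ} (s r e : ℕ) (F : MvPolynomial (Fin N) ℂ) : Prop :=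
  ∀ Ω : Set ℂ, IsOpen Ω → IsPreconnected Ω → ∀ f : ℂ → Fin N → ℂ, DVec Ω s r e f →
    (∀ z ∈ Ω, eval (f z) F = 0) →
    ∀ z ∈ Ω, ∀ w ∈ Ω, ∀ i j, f z i * f w j = f z j * f w i

theorem result (n d s r e : ℕ) : ∃ Ps : Set (MvPolynomial ((Fin (n + 2)) →₀ ℕ) ℚ),
    (2 * n + 2 ≤ d → ∃ P ∈ Ps, ∃ F₀ : MvPolynomial (Fin (n + 2)) ℂ, F₀.IsHomogeneous d ∧
      aeval (fun m => F₀.coeff m) P ≠ 0) ∧
    (∀ F : MvPolynomial (Fin (n + 2)) ℂ, F.IsHomogeneous d → NoRationalCurve F →
      ∃ P ∈ Ps, aeval (fun m => F.coeff m) P ≠ 0) ∧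
    (∀ F : MvPolynomial (Fin (n + 2)) ℂ, F.IsHomogeneous d → Hyperbolic F → NoRationalCurve F) ∧
    ∀ F : MvPolynomial (Fin (n + 2)) ℂ, F.IsHomogeneous d →
      (∃ P ∈ Ps, aeval (fun m => F.coeff m) P ≠ 0) → BoundedHyperbolic s r e F := by
  classical
  obtain ⟨δ, B, hfam⟩ := family (n := n + 1) (D := d) s r e
  obtain ⟨G, hG, hGF⟩ := generic_form ℚ (n + 2) d
  have hfin := finite_exps (n + 2) d
  obtain ⟨Qs, h1, h2⟩ := hfam (k := ℚ) {G} (by
    intro F hF
    rw [Set.mem_singleton_iff] at hF
    rw [hF]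
    exact ⟨d, le_rfl, hG⟩)
  have hfib : ∀ F : MvPolynomial (Fin (n + 2)) ℂ, F.IsHomogeneous d →
      fibre {G} (fun α : {α : Fin (n + 2) →₀ ℕ // α.degree = d} => F.coeff α.1) = {F} := by
    intro F hF
    unfold fibre
    rw [Set.image_singleton, hGF F hF]
  have hren : ∀ (F : MvPolynomial (Fin (n + 2)) ℂ)
      (Ψ : MvPolynomial {α : Fin (n + 2) →₀ ℕ // α.degree = d} ℚ),
      aeval (fun m => F.coeff m) (rename Subtype.val Ψ) =
        aeval (fun α : {α : Fin (n + 2) →₀ ℕ // α.degree = d} => F.coeff α.1) Ψ := by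
    intro F Ψ
    rw [aeval_rename]
    rfl
  have hno : ∀ F : MvPolynomial (Fin (n + 2)) ℂ, F.IsHomogeneous d → NoRationalCurve F →
      ∃ P ∈ (rename Subtype.val '' Qs : Set (MvPolynomial ((Fin (n + 2)) →₀ ℕ) ℚ)),
        aeval (fun m => F.coeff m) P ≠ 0 := by
    intro F hF hn
    obtain ⟨Ψ, hΨ, hΨ'⟩ := (h1 fun α => F.coeff α.1).2 (by
      rw [hfib F hF]
      rintro p ⟨s, t, i, j, hp⟩ -
      exact ⟨F, rfl, fun h0 => hp (hn p h0 s t i j)⟩)
    exact ⟨_, ⟨Ψ, hΨ, rfl⟩, by rwa [hren]⟩
  refine ⟨rename Subtype.val '' Qs, fun hd => ?_, hno, fun F hF hH => ?_, fun F hF hU => ?_⟩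
  · obtain ⟨F₀, hF₀, hp⟩ := exists_noRat hd
    obtain ⟨P, hP, hP'⟩ := hno F₀ hF₀ (by
      intro p h0 s t i j
      by_contra hne
      exact hp p ⟨s, t, i, j, hne⟩ h0)
    exact ⟨P, hP, F₀, hF₀, hP'⟩
  · intro p h0 s t i j
    by_contra hne
    obtain ⟨F', hF', h3⟩ := noRat_of_brody (S := {F}) (by
      intro F' hF'
      rw [Set.mem_singleton_iff] at hF'
      rw [hF']
      exact ⟨d, hF⟩) (by
      intro g hg1 hg2 hg3
      exact hH g hg1 hg2 fun z => hg3 z F rfl) _ p ⟨s, t, i, j, hne⟩
      (fun j => Finset.le_sup (f := fun j => (p j).natDegree) (Finset.mem_univ j))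
    rw [Set.mem_singleton_iff] at hF'
    rw [hF'] at h3
    exact h3 h0
  · obtain ⟨_, ⟨Ψ, hΨ, rfl⟩, hP⟩ := hU
    rw [hren] at hP
    have h3 := (h2 _ ⟨Ψ, hΨ, hP⟩).1
    rw [hfib F hF] at h3
    intro Ω hΩ hΩc f hf hfF
    refine h3 Ω hΩ hΩc f hf ?_
    intro z hz F' hF'
    rw [Set.mem_singleton_iff] at hF'
    rw [hF']
    exact hfF z hz

end Pool.Agent.Results.MP_b509a1_ag.ZariskiOpenBounded
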